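import Pool.Agent.Q31.GLW.Stm

/-!
# Job TRF of project GLW
-/

set_option autoImplicit false

namespace Pool.Agent.Q217.GLW

open Pool.Agent.Q31.GLW Cardinal

theorem countable_closure {G : Type} [Group G] (S : Set G) (hS : S.Countable) :
    ((Subgroup.closure S : Subgroup G) : Set G).Countable := by
  haveI : Countable S := hS.to_subtype
  haveI : Countable (FreeGroup S) := Quot.mk_surjective.countable
  have h : (FreeGroup.lift (fun s : S => (s : G))).range = Subgroup.closure S := by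
    rw [FreeGroup.range_lift_eq_closure, Subtype.range_coe]
  rw [← h, MonoidHom.coe_range]
  exact Set.countable_range _

theorem t_TRF : S_TRF := by
  classical
  intro G T _ P sol hT hP1 hyp
  have hle : #T ≤ #((ℵ₁ : Cardinal.{0}).ord.ToType) := by
    rw [Cardinal.mk_ord_toType]
    exact hT
  obtain ⟨f⟩ := hle
  have hwf : WellFounded (fun σ τ : T => f σ < f τ) := InvImage.wf f wellFounded_lt
  have hcount : ∀ τ, {σ | f σ < f τ}.Countable := by
    intro τ
    have h1 : (Set.Iio (f τ)).Countable :=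
      (Cardinal.countable_iff_lt_aleph_one _).2 (Cardinal.mk_Iio_toType_ord_lt _)
    exact h1.preimage_of_injOn f.injective.injOn
  have hcl : ∀ (τ : T) (ih : ∀ σ, f σ < f τ → G),
      ((Subgroup.closure {x | ∃ σ, ∃ hσ : f σ < f τ, ih σ hσ = x} : Subgroup G) : Set G).Countable := by
    intro τ ih
    apply countable_closure
    haveI : Countable {σ | f σ < f τ} := (hcount τ).to_subtype
    refine (Set.countable_range (fun s : {σ | f σ < f τ} => ih s.1 s.2)).mono ?_
    rintro x ⟨σ, hσ, rfl⟩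
    exact ⟨⟨σ, hσ⟩, rfl⟩
  let step : ∀ τ, (∀ σ, f σ < f τ → G) → G := fun τ ih =>
    if H : ∀ k ∈ Subgroup.closure {x | ∃ σ, ∃ hσ : f σ < f τ, ih σ hσ = x}, P k then
      (hyp _ (hcl τ ih) H τ).choose else 1
  let h : T → G := hwf.fix step
  have hfix : ∀ τ, h τ = step τ (fun σ _ => h σ) := hwf.fix_eq step
  let K : T → Subgroup G := fun τ => Subgroup.closure {x | ∃ σ, ∃ _ : f σ < f τ, h σ = x}
  let L : T → Subgroup G := fun τ => Subgroup.closure ((K τ : Set G) ∪ {h τ})
  have hKL : ∀ τ, K τ ≤ L τ := fun τ x hx => Subgroup.subset_closure (Or.inl hx)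
  have hhL : ∀ τ, h τ ∈ L τ := fun τ => Subgroup.subset_closure (Or.inr rfl)
  have hLK : ∀ σ τ, f σ < f τ → L σ ≤ K τ := by
    intro σ τ hστ
    rw [Subgroup.closure_le]
    rintro x (hx | hx)
    · refine Subgroup.closure_mono ?_ hx
      rintro y ⟨ρ, hρ, rfl⟩
      exact ⟨ρ, hρ.trans hστ, rfl⟩
    · rw [Set.mem_singleton_iff.1 hx]
      exact Subgroup.subset_closure ⟨σ, hστ, rfl⟩
  have hmono : ∀ σ τ, f σ ≤ f τ → L σ ≤ L τ := by
    intro σ τ hστ
    rcases hστ.lt_or_eq with h1 | h1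
    · exact (hLK σ τ h1).trans (hKL τ)
    · rw [f.injective h1]
  have key : ∀ (A : T → Prop) (x : G), x ∈ Subgroup.closure {x | ∃ σ, ∃ _ : A σ, h σ = x} →
      x = 1 ∨ ∃ σ, A σ ∧ x ∈ L σ := by
    intro A x hx
    induction hx using Subgroup.closure_induction with
    | mem x hx =>
      obtain ⟨σ, hσ, rfl⟩ := hx
      exact Or.inr ⟨σ, hσ, hhL σ⟩
    | one => exact Or.inl rfl
    | mul x y _ _ hx hy =>
      rcases hx with rfl | ⟨σ, hσ, hx⟩
      · rw [one_mul]
        exact hy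
      · rcases hy with rfl | ⟨τ, hτ, hy⟩
        · rw [mul_one]
          exact Or.inr ⟨σ, hσ, hx⟩
        · rcases le_total (f σ) (f τ) with h1 | h1
          · exact Or.inr ⟨τ, hτ, (L τ).mul_mem (hmono _ _ h1 hx) hy⟩
          · exact Or.inr ⟨σ, hσ, (L σ).mul_mem hx (hmono _ _ h1 hy)⟩
    | inv x _ hx =>
      rcases hx with rfl | ⟨σ, hσ, hx⟩
      · exact Or.inl inv_one
      · exact Or.inr ⟨σ, hσ, (L σ).inv_mem hx⟩
  have main : ∀ τ, sol τ (h τ) ∧ ∀ x ∈ L τ, P x := by
    intro τ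
    induction τ using hwf.induction with
    | _ τ ih =>
      have hP : ∀ k ∈ Subgroup.closure {x | ∃ σ, ∃ hσ : f σ < f τ, h σ = x}, P k := by
        intro k hk
        rcases key _ _ hk with rfl | ⟨σ, hσ, hk⟩
        · exact hP1
        · exact (ih σ hσ).2 k hk
      have h1 : h τ = (hyp _ (hcl τ fun σ _ => h σ) hP τ).choose := by
        rw [hfix τ]
        exact dif_pos hP
      have h2 := (hyp _ (hcl τ fun σ _ => h σ) hP τ).choose_spec
      rw [← h1] at h2
      exact h2
  refine ⟨Subgroup.closure {x | ∃ σ, ∃ _ : True, h σ = x}, ?_, ?_⟩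
  · intro x hx
    rcases key (fun _ => True) _ hx with rfl | ⟨σ, _, hx⟩
    · exact hP1
    · exact (main σ).2 x hx
  · intro τ
    exact ⟨h τ, Subgroup.subset_closure ⟨τ, trivial, rfl⟩, (main τ).1⟩

end Pool.Agent.Q217.GLW
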